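import Pool.Agent.Lib_MP_8460ec_an.Main

/-!
# Sharp measures on self-affine sponges
-/

namespace Pool.Agent.Results.MP_8460ec_an.SharpMeasures

open Pool.Agent.Lib_MP_8460ec_an MeasureTheory

/-- Every Bedford-McMullen sponge `K` (any `d`, no separation condition) is the support of a Borel
probability measure which is sharp both for the Assouad and for the lower dimension of `K`. -/
theorem result {d : ℕ} (n : Fin d → ℕ) (D : Finset (Fin d → ℕ))
    (K : Set (EuclideanSpace ℝ (Fin d))) (hK : IsSponge n D K) :
    ∃ μ : Measure (EuclideanSpace ℝ (Fin d)), IsProbabilityMeasure μ ∧ μ.support = K ∧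
      SharpAssouad K μ ∧ SharpLower K μ :=
  main n D K hK

end Pool.Agent.Results.MP_8460ec_an.SharpMeasures
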